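import Pool.Agent.W761.CP.Defs

/-! Project CP, part GAP: a gap in the spectrum by counting -/

set_option autoImplicit false

namespace Pool.Agent.W403.CP
open scoped InnerProductSpace
open Pool.Agent.W761.CP

lemma quad {n : ℕ} (c : Fin n → ℂ) (M : Fin n → Fin n → ℂ) (D : Fin n → ℝ) (δ : ℝ)
    (hδ : 0 ≤ δ) (h : ∀ i j, ‖M i j - (if i = j then (D i : ℂ) else 0)‖ ≤ δ) :
    |(∑ i, ∑ j, (starRingEnd ℂ) (c i) * c j * M i j).re - ∑ i, D i * ‖c i‖ ^ 2| ≤
      δ * (n * ∑ i, ‖c i‖ ^ 2) := by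
  have e : (∑ i, ∑ j, (starRingEnd ℂ) (c i) * c j * M i j) =
      ∑ i, ∑ j, (starRingEnd ℂ) (c i) * c j * (M i j - (if i = j then (D i : ℂ) else 0)) +
        ((∑ i, D i * ‖c i‖ ^ 2 : ℝ) : ℂ) := by
    have e1 : ((∑ i, D i * ‖c i‖ ^ 2 : ℝ) : ℂ) =
        ∑ i, ∑ j, (starRingEnd ℂ) (c i) * c j * (if i = j then (D i : ℂ) else 0) := by
      push_cast
      refine Finset.sum_congr rfl fun i _ => ?_
      simp only [mul_ite, mul_zero, Finset.sum_ite_eq, Finset.mem_univ, if_true]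
      rw [Complex.conj_mul', mul_comm]
    rw [e1, ← Finset.sum_add_distrib]
    refine Finset.sum_congr rfl fun i _ => ?_
    rw [← Finset.sum_add_distrib]
    refine Finset.sum_congr rfl fun j _ => ?_
    ring
  rw [e, Complex.add_re, Complex.ofReal_re, add_sub_cancel_right]
  refine (Complex.abs_re_le_norm _).trans ?_
  calc ‖∑ i, ∑ j, (starRingEnd ℂ) (c i) * c j * (M i j - (if i = j then (D i : ℂ) else 0))‖
      ≤ ∑ i, ∑ j, ‖c i‖ * ‖c j‖ * δ := by
        refine (norm_sum_le _ _).trans (Finset.sum_le_sum fun i _ => ?_)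
        refine (norm_sum_le _ _).trans (Finset.sum_le_sum fun j _ => ?_)
        rw [norm_mul, norm_mul, RCLike.norm_conj]
        exact mul_le_mul_of_nonneg_left (h i j) (by positivity)
    _ = δ * (∑ i, ‖c i‖) ^ 2 := by
        rw [sq, Finset.sum_mul_sum, Finset.mul_sum]
        refine Finset.sum_congr rfl fun i _ => ?_
        rw [Finset.mul_sum]
        refine Finset.sum_congr rfl fun j _ => ?_
        ring
    _ ≤ δ * (n * ∑ i, ‖c i‖ ^ 2) := by
        refine mul_le_mul_of_nonneg_left ?_ hδ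
        have h2 := sq_sum_le_card_mul_sum_sq (s := (Finset.univ : Finset (Fin n)))
          (f := fun i => ‖c i‖)
        rw [Finset.card_univ, Fintype.card_fin] at h2
        exact h2

theorem gap : S_GAP := by
  intro X _ _ _ H N a b ha hab hsym hcount
  by_contra hcon
  push Not at hcon
  have hba : 0 < b - a := by linarith
  have hN0 : (0 : ℝ) ≤ N := Nat.cast_nonneg N
  set η : ℝ := (b - a) / (8 * (N + 1) * (N + 2)) with hη
  have hη0 : 0 < η := by positivity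
  have hex : ∀ l : ℝ, a ≤ l → l ≤ b →
      ∃ v f : X, (v, (l : ℂ) • v + f) ∈ H ∧ ‖v‖ = 1 ∧ ‖f‖ ≤ η := by
    intro l h1 h2
    obtain ⟨v, f, hv, hf⟩ := hcon l h1 h2
    have hv0 : v ≠ 0 := by
      rintro rfl
      rw [norm_zero, mul_zero] at hf
      linarith [norm_nonneg f]
    have hvn : 0 < ‖v‖ := norm_pos_iff.mpr hv0
    refine ⟨((‖v‖⁻¹ : ℝ) : ℂ) • v, ((‖v‖⁻¹ : ℝ) : ℂ) • f, ?_, ?_, ?_⟩
    · have h3 := H.smul_mem ((‖v‖⁻¹ : ℝ) : ℂ) hv
      rw [Prod.smul_mk, smul_add, smul_comm] at h3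
      exact h3
    · rw [norm_smul, Complex.norm_real, norm_inv, norm_norm, inv_mul_cancel₀ hvn.ne']
    · rw [norm_smul, Complex.norm_real, norm_inv, norm_norm, inv_mul_le_iff₀ hvn, mul_comm]
      exact hf.le
  set τ : ℝ := (b - a) / (N + 2) with hτ
  have hτ0 : 0 < τ := by positivity
  have hητ : 2 * η = τ * (1 / (4 * (N + 1))) := by
    rw [hη, hτ]
    field_simp
    ring
  set l : Fin (N + 1) → ℝ := fun i => a + τ * ((i : ℕ) + 1) with hl
  have hl1 : ∀ i, a ≤ l i := by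
    intro i
    have : 0 ≤ τ * (((i : ℕ) : ℝ) + 1) := by positivity
    simp only [hl]
    linarith
  have hl2 : ∀ i, l i ≤ b := by
    intro i
    have h1 : (((i : ℕ) : ℝ) + 1) ≤ (N : ℝ) + 2 := by
      have h2 : (i : ℕ) ≤ N := by have := i.2; omega
      have h3 : ((i : ℕ) : ℝ) ≤ N := by exact_mod_cast h2
      linarith
    have h2 : τ * (((i : ℕ) : ℝ) + 1) ≤ τ * ((N : ℝ) + 2) :=
      mul_le_mul_of_nonneg_left h1 hτ0.le
    have h3 : τ * ((N : ℝ) + 2) = b - a := by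
      rw [hτ]; field_simp
    simp only [hl]
    linarith
  choose v f hvf hv1 hf1 using fun i => hex (l i) (hl1 i) (hl2 i)
  set ε : ℝ := 1 / (4 * ((N : ℝ) + 1)) with hε
  have hε0 : 0 < ε := by positivity
  have hb0 : 0 < b := by linarith
  -- the differences of the `l i`
  have hdiff : ∀ i j, i ≠ j → τ ≤ |l j - l i| := by
    intro i j hij
    have h1 : l j - l i = τ * (((j : ℕ) : ℝ) - ((i : ℕ) : ℝ)) := by
      simp only [hl]; ring
    rw [h1, abs_mul, abs_of_pos hτ0]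
    have h2 : (1 : ℝ) ≤ |((j : ℕ) : ℝ) - ((i : ℕ) : ℝ)| := by
      have h3 : ((j : ℕ) : ℤ) - ((i : ℕ) : ℤ) ≠ 0 := by
        intro h
        apply hij
        apply Fin.ext
        omega
      have h4 := Int.one_le_abs h3
      exact_mod_cast h4
    nlinarith
  have hoff : ∀ i j, i ≠ j → ‖⟪v i, v j⟫_ℂ‖ ≤ ε := by
    intro i j hij
    have h1 := hsym (v j) _ (v i) _ (hvf j) (hvf i)
    rw [inner_add_right, inner_smul_right, inner_add_left, inner_smul_left,
      Complex.conj_ofReal] at h1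
    have h2 : (((l j - l i : ℝ)) : ℂ) * ⟪v i, v j⟫_ℂ = ⟪f i, v j⟫_ℂ - ⟪v i, f j⟫_ℂ := by
      push_cast
      linear_combination h1
    have h3 : |l j - l i| * ‖⟪v i, v j⟫_ℂ‖ ≤ 2 * η := by
      have h4 : |l j - l i| * ‖⟪v i, v j⟫_ℂ‖ = ‖⟪f i, v j⟫_ℂ - ⟪v i, f j⟫_ℂ‖ := by
        rw [← h2, norm_mul, Complex.norm_real, Real.norm_eq_abs]
      rw [h4]
      have h5 : ‖⟪f i, v j⟫_ℂ‖ ≤ η := by
        refine (norm_inner_le_norm _ _).trans ?_
        rw [hv1, mul_one]; exact hf1 i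
      have h6 : ‖⟪v i, f j⟫_ℂ‖ ≤ η := by
        refine (norm_inner_le_norm _ _).trans ?_
        rw [hv1, one_mul]; exact hf1 j
      refine (norm_sub_le _ _).trans ?_
      linarith
    have h7 : τ * ‖⟪v i, v j⟫_ℂ‖ ≤ τ * ε := by
      rw [← hητ]
      refine le_trans ?_ h3
      exact mul_le_mul_of_nonneg_right (hdiff i j hij) (norm_nonneg _)
    exact le_of_mul_le_mul_left h7 hτ0
  -- the Gram matrix
  have hG : ∀ i j, ‖⟪v i, v j⟫_ℂ - (if i = j then ((1 : ℝ) : ℂ) else 0)‖ ≤ ε := by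
    intro i j
    by_cases hij : i = j
    · subst hij
      rw [if_pos rfl, inner_self_eq_norm_sq_to_K, hv1]
      simp [hε0.le]
    · rw [if_neg hij, sub_zero]
      exact hoff i j hij
  have hF : ∀ i j, ‖⟪v i, (l j : ℂ) • v j + f j⟫_ℂ - (if i = j then (l i : ℂ) else 0)‖ ≤
      b * ε + η := by
    intro i j
    have h1 : ⟪v i, (l j : ℂ) • v j + f j⟫_ℂ - (if i = j then (l i : ℂ) else 0) =
        (l j : ℂ) * (⟪v i, v j⟫_ℂ - (if i = j then ((1 : ℝ) : ℂ) else 0)) + ⟪v i, f j⟫_ℂ := by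
      rw [inner_add_right, inner_smul_right]
      by_cases hij : i = j
      · subst hij
        rw [if_pos rfl, if_pos rfl]
        push_cast
        ring
      · rw [if_neg hij, if_neg hij]
        ring
    rw [h1]
    refine (norm_add_le _ _).trans (add_le_add ?_ ?_)
    · rw [norm_mul, Complex.norm_real, Real.norm_eq_abs, abs_of_pos (by linarith [hl1 j])]
      exact mul_le_mul (hl2 j) (hG i j) (norm_nonneg _) hb0.le
    · refine (norm_inner_le_norm _ _).trans ?_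
      rw [hv1, one_mul]; exact hf1 j
  have hexp : ∀ (c : Fin (N + 1) → ℂ) (w : Fin (N + 1) → X),
      ⟪∑ i, c i • v i, ∑ j, c j • w j⟫_ℂ =
        ∑ i, ∑ j, (starRingEnd ℂ) (c i) * c j * ⟪v i, w j⟫_ℂ := by
    intro c w
    rw [sum_inner]
    refine Finset.sum_congr rfl fun i _ => ?_
    rw [inner_sum]
    refine Finset.sum_congr rfl fun j _ => ?_
    rw [inner_smul_left, inner_smul_right]
    ring
  have hεN : ε * ((N : ℝ) + 1) = 1 / 4 := by
    rw [hε]; field_simp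
  have hlow : ∀ c : Fin (N + 1) → ℂ, 3 / 4 * ∑ i, ‖c i‖ ^ 2 ≤ ‖∑ i, c i • v i‖ ^ 2 := by
    intro c
    have h1 := quad c (fun i j => ⟪v i, v j⟫_ℂ) (fun _ => 1) ε hε0.le hG
    rw [← hexp c v] at h1
    have h2 : (⟪∑ i, c i • v i, ∑ i, c i • v i⟫_ℂ).re = ‖∑ i, c i • v i‖ ^ 2 :=
      inner_self_eq_norm_sq (𝕜 := ℂ) _
    rw [h2] at h1
    simp only [one_mul] at h1
    have h3 := neg_le_of_abs_le h1
    have h4 : ε * (((N + 1 : ℕ) : ℝ) * ∑ i, ‖c i‖ ^ 2) = 1 / 4 * ∑ i, ‖c i‖ ^ 2 := by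
      push_cast
      rw [← mul_assoc, hεN]
    rw [h4] at h3
    linarith
  have hlin : LinearIndependent ℂ v := by
    rw [Fintype.linearIndependent_iff]
    intro c hc i
    have h1 := hlow c
    rw [hc, norm_zero] at h1
    have h2 : ‖c i‖ ^ 2 ≤ ∑ i, ‖c i‖ ^ 2 :=
      Finset.single_le_sum (f := fun i => ‖c i‖ ^ 2) (fun j _ => sq_nonneg _)
        (Finset.mem_univ i)
    have h3 : ‖c i‖ ^ 2 ≤ 0 := by linarith
    have h4 : ‖c i‖ = 0 := by
      have := sq_nonneg ‖c i‖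
      exact pow_eq_zero_iff (two_ne_zero) |>.mp (le_antisymm h3 this)
    exact norm_eq_zero.mp h4
  have hfin := hcount (N + 1) v hlin ?_
  · omega
  intro c
  refine ⟨∑ j, c j • ((l j : ℂ) • v j + f j), ?_, ?_⟩
  · have h1 : ∑ j, c j • ((v j, (l j : ℂ) • v j + f j) : X × X) ∈ H :=
      H.sum_mem fun j _ => H.smul_mem _ (hvf j)
    have h2 : ∑ j, c j • ((v j, (l j : ℂ) • v j + f j) : X × X) =
        (∑ j, c j • v j, ∑ j, c j • ((l j : ℂ) • v j + f j)) := by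
      apply Prod.ext
      · rw [Prod.fst_sum]
        rfl
      · rw [Prod.snd_sum]
        rfl
    rw [h2] at h1
    exact h1
  · have h1 := quad c (fun i j => ⟪v i, (l j : ℂ) • v j + f j⟫_ℂ) l (b * ε + η)
      (by positivity) hF
    rw [← hexp c (fun j => (l j : ℂ) • v j + f j)] at h1
    have h2 := le_of_abs_le h1
    have h3 : ∑ i, l i * ‖c i‖ ^ 2 ≤ b * ∑ i, ‖c i‖ ^ 2 := by
      rw [Finset.mul_sum]
      exact Finset.sum_le_sum fun i _ => mul_le_mul_of_nonneg_right (hl2 i) (sq_nonneg _)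
    have h4 : 0 ≤ ∑ i, ‖c i‖ ^ 2 := Finset.sum_nonneg fun i _ => sq_nonneg _
    have h5 : η * ((N : ℝ) + 1) ≤ b * (1 / 16) := by
      have h6 : η * ((N : ℝ) + 1) = (b - a) / (8 * (N + 2)) := by
        rw [hη]; field_simp
      rw [h6, div_le_iff₀ (by positivity)]
      nlinarith
    have h7 : (b * ε + η) * (((N + 1 : ℕ) : ℝ) * ∑ i, ‖c i‖ ^ 2) ≤
        (b * (5 / 16)) * ∑ i, ‖c i‖ ^ 2 := by
      push_cast
      rw [← mul_assoc]
      refine mul_le_mul_of_nonneg_right ?_ h4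
      have h8 : (b * ε + η) * ((N : ℝ) + 1) = b * (ε * ((N : ℝ) + 1)) + η * ((N : ℝ) + 1) := by
        ring
      rw [h8, hεN]
      linarith
    have h9 := hlow c
    have h10 : 0 ≤ b * ∑ i, ‖c i‖ ^ 2 := mul_nonneg hb0.le h4
    nlinarith

end Pool.Agent.W403.CP
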